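import Pool.Agent.N236.UB.Stm

/-!
# Project UB (helper236): assembly, local part
-/

set_option autoImplicit false

open Polynomial

namespace Pool.Agent.N236.UB

/-- `p` is good for `d`. -/
def Good (d p : ℕ) : Prop := p.Prime ∧ ¬ p ∣ d ∧
  ∀ l : ℕ, l.Prime → l ∣ d → ∀ f : ℕ, 1 ≤ f → f < l - 1 → ¬ l ∣ p ^ f - 1

theorem exc_ndeg (hdeg : S_DEG) {K : Type} [Field K] {M : ℕ} {F : K[X]} (h : Exc M F) :
    1 ≤ F.natDegree := by
  induction h with
  | affine a b ha => rw [natDegree_linear ha]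
  | power l hl h => rw [natDegree_X_pow]; exact hl.one_lt.le
  | dickson l α hl h => rw [hdeg K α l hl.one_lt.le]; exact hl.one_lt.le
  | comp F G hF hG ihF ihG => rw [natDegree_comp]; exact Nat.mul_pos ihF ihG

theorem sep_exc (hdeg : S_DEG) (hsepc : S_SEPC) (hpow : S_POW) (hdic : S_DICV)
    {K L : Type} [Field K] [Field L] (i : K →+* L) (v : AbsoluteValue L ℝ) (p f e M d : ℕ)
    (hv : Loc v p (p ^ f) e) (hgood : Good d p) (hf1 : 1 ≤ f) (hfM : f ≤ M) {F : K[X]}
    (h : Exc M F) : F.natDegree ∣ d → Sep v (F.map i) := by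
  have hp := hgood.1
  induction h with
  | affine a b ha =>
    intro _
    have := (hsepc L v p (p ^ f) e hv).1 (i a) (i b)
    simpa using this
  | power l hl h =>
    intro hd
    rw [natDegree_X_pow] at hd
    rw [Polynomial.map_pow, Polynomial.map_X]
    refine hpow L v p (p ^ f) e l hv hp hl.one_lt.le ?_ ?_
    · intro hpl
      exact hgood.2.1 (hpl.trans hd)
    · rw [Nat.Prime.coprime_iff_not_dvd hl]
      exact hgood.2.2 l hl hd f hf1 (by omega)
  | dickson l α hl h =>
    intro hd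
    rw [hdeg K α l hl.one_lt.le] at hd
    rw [map_dickson]
    refine hdic L v p (p ^ f) e l (i α) hv hp hl ?_ ?_
    · intro hpl
      exact hgood.2.1 (hpl.trans hd)
    · rw [Nat.Prime.coprime_iff_not_dvd hl, ← pow_mul]
      exact hgood.2.2 l hl hd (f * 2) (by omega) (by omega)
  | comp F G hF hG ihF ihG =>
    intro hd
    rw [natDegree_comp] at hd
    rw [Polynomial.map_comp]
    exact (hsepc L v p (p ^ f) e hv).2 _ _ (ihF ((Dvd.intro _ rfl).trans hd))
      (ihG ((Dvd.intro_left _ rfl).trans hd))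

theorem per_mul {L : Type} {z : ℤ → L} {N : ℕ} (h : Per z N) (k : ℕ) : Per z (k * N) := by
  intro n
  induction k with
  | zero => simp
  | succ k ih =>
    have := h (n + (k * N : ℕ))
    rw [ih] at this
    rw [← this]
    congr 1
    push_cast
    ring

theorem per_dvd {L : Type} {z : ℤ → L} {N N' : ℕ} (h : Per z N) (hd : N ∣ N') : Per z N' := by
  obtain ⟨k, rfl⟩ := hd
  rw [mul_comm]
  exact per_mul h k

/-- local period bound with `v δ ≤ 1`. -/
theorem per_le (hint : S_INT) (hper1 : S_PER1) (hper2 : S_PER2)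
    {L : Type} [Field L] (v : AbsoluteValue L ℝ) (p q e : ℕ) (hv : Loc v p q e) (hp : p.Prime)
    (F : L[X]) (δ : L) (hF : Sep v F) (hδ : v δ ≤ 1) (z : ℤ → L) (N : ℕ) (hN : 1 ≤ N)
    (hz : Per z N) (hr : Rec F δ z) : Per z (N0 p q e) := by
  rcases hint L v p q e hv F δ hF hδ z N hN hz hr with h | ⟨c, s, G, hs, hG, hy, hrec⟩
  · have h1 : Per z 1 := by
      intro n
      have := h n
      simpa using this
    exact per_dvd h1 (one_dvd _)
  · have hpy : Per (fun n => (z n - c) / s) N := by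
      intro n
      simp only
      rw [hz n]
    have key : Per (fun n => (z n - c) / s) (N0 p q e) := by
      rcases lt_or_eq_of_le hδ with h | h
      · exact hper1 L v p q e hv hp G δ _ N hG h hN hpy hy hrec
      · exact hper2 L v p q e hv hp G δ _ N hG h hN hpy hy hrec
    intro n
    have := key n
    simp only at this
    rw [div_left_inj' hs] at this
    exact sub_left_injective this

theorem per_local (hsepc : S_SEPC) (hint : S_INT) (hper1 : S_PER1) (hper2 : S_PER2)
    {L : Type} [Field L] (v : AbsoluteValue L ℝ) (p q e : ℕ) (hv : Loc v p q e) (hp : p.Prime)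
    (F : L[X]) (δ : L) (hF : Sep v F) (z : ℤ → L) (N : ℕ) (hN : 1 ≤ N)
    (hz : Per z N) (hr : Rec F δ z) : Per z (N0 p q e) := by
  rcases le_or_gt (v δ) 1 with hδ | hδ
  · exact per_le hint hper1 hper2 v p q e hv hp F δ hF hδ z N hN hz hr
  · have hδ0 : δ ≠ 0 := by
      rintro rfl
      simp at hδ
      linarith
    have hvinv : v δ⁻¹ ≤ 1 := by
      rw [map_inv₀]
      exact inv_le_one_of_one_le₀ hδ.le
    have hsep' : Sep v (C δ⁻¹ * F) := by
      have h1 := (hsepc L v p q e hv).1 δ⁻¹ 0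
      have h2 := (hsepc L v p q e hv).2 _ _ h1 hF
      simpa using h2
    have hper' : Per (fun n => z (-n)) N := by
      intro n
      have := hz (-(n + N))
      simp only
      rw [← this]
      congr 1
      ring
    have hrec' : Rec (C δ⁻¹ * F) δ⁻¹ (fun n => z (-n)) := by
      intro n
      have := hr (-n)
      simp only [eval_mul, eval_C]
      rw [← this]
      have e1 : -(n + 1) = -n - 1 := by ring
      have e2 : -(n - 1) = -n + 1 := by ring
      rw [e1, e2]
      field_simp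
      ring
    have := per_le hint hper1 hper2 v p q e hv hp _ _ hsep' hvinv _ N hN hper' hrec'
    intro n
    have h := this (-(n + N0 p q e))
    simp only [neg_neg] at h
    rw [← h]
    congr 1
    ring

/-- uniform period -/
def NN (p M : ℕ) : ℕ := ∏ f ∈ Finset.Icc 1 M, N0 p (p ^ f) M

theorem N0_dvd_NN {p M f e : ℕ} (h1 : 1 ≤ f) (h2 : f ≤ M) (he : e ≤ M) : N0 p (p ^ f) e ∣ NN p M := by
  have h3 : N0 p (p ^ f) e ∣ N0 p (p ^ f) M := by
    unfold N0
    exact Nat.mul_dvd_mul_left _ (Nat.mul_dvd_mul_left _ (pow_dvd_pow _ (by omega)))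
  exact h3.trans (Finset.dvd_prod_of_mem _ (Finset.mem_Icc.mpr ⟨h1, h2⟩))

theorem NN_pos {p M : ℕ} (hp : p.Prime) : 1 ≤ NN p M := by
  unfold NN
  refine Nat.one_le_iff_ne_zero.mpr (Finset.prod_ne_zero_iff.mpr ?_)
  intro f hf
  rw [Finset.mem_Icc] at hf
  unfold N0 gl
  have hq : 2 ≤ p ^ f := le_trans hp.two_le (Nat.le_self_pow (by omega) p)
  have h1 : 1 < (p ^ f) ^ 2 := by nlinarith
  have h2 : p ^ f < (p ^ f) ^ 2 := by nlinarith
  have h3 : 0 < p ^ (M + 1) := pow_pos hp.pos _
  have h4 := Nat.factorial_pos ((p ^ f) ^ 2)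
  have h5 : 0 < (p ^ f) ^ 2 - 1 := by omega
  have h6 : 0 < (p ^ f) ^ 2 - p ^ f := by omega
  exact (Nat.mul_pos h4 (Nat.mul_pos (Nat.mul_pos h5 h6) h3)).ne'

/-- Uniform period bound over number fields of degree at most `M`. -/
theorem per_field (hplace : S_PLACE) (hdeg : S_DEG) (hsepc : S_SEPC) (hpow : S_POW) (hdic : S_DICV)
    (hint : S_INT) (hper1 : S_PER1) (hper2 : S_PER2)
    {K L : Type} [Field K] [Field L] [NumberField L] (i : K →+* L) (p M : ℕ)
    (hM : Module.finrank ℚ L ≤ M) {F : K[X]} (hgood : Good F.natDegree p)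
    (h : Exc M F) (δ : L) (z : ℤ → L) (N : ℕ) (hN : 1 ≤ N)
    (hz : Per z N) (hr : Rec (F.map i) δ z) : Per z (NN p M) := by
  obtain ⟨v, f, e, hf1, hfM, he1, heM, hv⟩ := hplace L M p hgood.1 hM
  have hS := sep_exc hdeg hsepc hpow hdic i v p f e M F.natDegree hv hgood hf1 hfM h dvd_rfl
  exact per_dvd (per_local hsepc hint hper1 hper2 v p (p ^ f) e hv hgood.1 _ δ hS z N hN hz hr)
    (N0_dvd_NN hf1 hfM heM)

/-- injectivity -/
theorem inj_field (hplace : S_PLACE) (hdeg : S_DEG) (hsepc : S_SEPC) (hpow : S_POW) (hdic : S_DICV)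
    {K L : Type} [Field K] [Field L] [NumberField L] (i : K →+* L) (p M : ℕ)
    (hM : Module.finrank ℚ L ≤ M) {F : K[X]} (hgood : Good F.natDegree p)
    (h : Exc M F) (x y : L) (hxy : (F.map i).eval x = (F.map i).eval y) : x = y := by
  obtain ⟨v, f, e, hf1, hfM, he1, heM, hv⟩ := hplace L M p hgood.1 hM
  have hS := sep_exc hdeg hsepc hpow hdic i v p f e M F.natDegree hv hgood hf1 hfM h dvd_rfl
  have h1 := exc_ndeg hdeg h
  by_contra hne
  have h2 := hS x y F.natDegree h1
  rw [hxy, sub_self, map_zero] at h2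
  have h3 : (taylor x (F.map i)).coeff F.natDegree = (F.map i).leadingCoeff := by
    have h4 : (taylor x (F.map i)).natDegree = F.natDegree := by
      rw [natDegree_taylor, natDegree_map]
    have h5 : (taylor x (F.map i)).leadingCoeff = (F.map i).leadingCoeff := by
      rw [taylor_apply, leadingCoeff_comp (by rw [natDegree_X_add_C]; exact one_ne_zero)]
      simp
    rw [← h5, leadingCoeff, h4]
  rw [h3] at h2
  have hF0 : F ≠ 0 := by
    rintro rfl
    simp at h1
  have h6 : 0 < v (F.map i).leadingCoeff := by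
    apply v.pos
    rw [leadingCoeff_ne_zero]
    exact (Polynomial.map_ne_zero_iff i.injective).mpr hF0
  have h7 : 0 < v (y - x) := v.pos (sub_ne_zero.mpr (Ne.symm hne))
  have h8 : 0 < v (F.map i).leadingCoeff * v (y - x) ^ F.natDegree := mul_pos h6 (pow_pos h7 _)
  linarith

end Pool.Agent.N236.UB
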