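import Mathlib

/-!
# Project UB (helper236): definitions
Uniform bounds for periodic points of Hénon maps and polynomials that are compositions of
affine maps, powers and Dickson polynomials.
-/

set_option autoImplicit false

open Polynomial

namespace Pool.Agent.N236.UB

/-- A nonarchimedean discrete absolute value on `L` with residue field of `q` elements, with `|p| < 1`
and `|p| >= |ϖ|^e`, `ϖ` a uniformizer. -/
def Loc {L : Type} [Field L] (v : AbsoluteValue L ℝ) (p q e : ℕ) : Prop :=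
  (∀ x y : L, v (x + y) ≤ max (v x) (v y)) ∧
  (∃ w : L, 0 < v w ∧ v w < 1 ∧ (∀ x : L, v x < 1 → v x ≤ v w) ∧ v w ^ e ≤ v (p : L)) ∧
  v (p : L) < 1 ∧
  ∃ (O : Subring L) (k : Type) (_ : Field k) (_ : Fintype k) (red : O →+* k),
    (∀ x : L, x ∈ O ↔ v x ≤ 1) ∧ (∀ x : O, red x = 0 ↔ v (x : L) < 1) ∧
    Function.Surjective red ∧ Fintype.card k = q

/-- Separated polynomials: no cancellation in its Taylor expansions at points of `L`. -/
def Sep {L : Type} [Field L] (v : AbsoluteValue L ℝ) (F : L[X]) : Prop :=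
  ∀ x y : L, ∀ i : ℕ, 1 ≤ i → v ((taylor x F).coeff i) * v (y - x) ^ i ≤ v (F.eval y - F.eval x)

/-- Two-sided sequences with `z (n+1) + δ z (n-1) = F (z n)` (orbits of the Hénon map
`(x,y) ↦ (y, F y - δ x)`; orbits of the polynomial `F` if `δ = 0`). -/
def Rec {L : Type} [Field L] (F : L[X]) (δ : L) (z : ℤ → L) : Prop :=
  ∀ n : ℤ, z (n + 1) + δ * z (n - 1) = F.eval (z n)

/-- period `N` -/
def Per {L : Type} (z : ℤ → L) (N : ℕ) : Prop := ∀ n : ℤ, z (n + N) = z n

/-- all coefficients are integral -/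
def IntPol {L : Type} [Field L] (v : AbsoluteValue L ℝ) (G : L[X]) : Prop := ∀ i : ℕ, v (G.coeff i) ≤ 1

/-- the order of `GL_2` of a field of `q` elements -/
def gl (q : ℕ) : ℕ := (q ^ 2 - 1) * (q ^ 2 - q)

/-- The local period bound. -/
def N0 (p q e : ℕ) : ℕ := Nat.factorial (q ^ 2) * (gl q * p ^ (e + 1))

/-- Compositions of affine maps, powers `X^ℓ` with `ℓ > M + 1` prime, and Dickson polynomials
`D_ℓ(X, α)` with `ℓ > 2 M + 1` prime. -/
inductive Exc {K : Type} [Field K] (M : ℕ) : K[X] → Prop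
  | affine (a b : K) (ha : a ≠ 0) : Exc M (C a * X + C b)
  | power (l : ℕ) (hl : l.Prime) (h : M + 1 < l) : Exc M (X ^ l)
  | dickson (l : ℕ) (α : K) (hl : l.Prime) (h : 2 * M + 1 < l) : Exc M (Polynomial.dickson 1 α l)
  | comp (F G : K[X]) (hF : Exc M F) (hG : Exc M G) : Exc M (F.comp G)

/-- divided difference of a polynomial -/
noncomputable def dd {L : Type} [Field L] (G : L[X]) (x y : L) : L :=
  ∑ i ∈ G.support, G.coeff i * ∑ j ∈ Finset.range i, x ^ j * y ^ (i - 1 - j)

/-- the Hénon map -/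
noncomputable def henon {K R : Type} [Field K] [Field R] [Algebra K R] (F : K[X]) (δ : K) (P : R × R) : R × R :=
  (P.2, aeval P.2 F - algebraMap K R δ * P.1)

end Pool.Agent.N236.UB
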