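import Pool.Agent.N236.UB.Glob

/-!
# Project UB (helper236): assembly, final theorems
-/

set_option autoImplicit false

open Polynomial

namespace Pool.Agent.N236.UB

theorem henon_main (hplace : S_PLACE) (hprime : S_PRIME) (hdeg : S_DEG) (hsepc : S_SEPC)
    (hpow : S_POW) (hdic : S_DICV) (hint : S_INT) (hper1 : S_PER1) (hper2 : S_PER2) (hfix : S_FIX)
    (D B d : ℕ) (hd : 2 ≤ d) : ∃ C : ℕ, ∀ (K : Type) [Field K] [NumberField K],
      Module.finrank ℚ K = D → ∀ (F : K[X]) (δ : K), δ ≠ 0 → F.natDegree = d → Exc (D * B) F →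
      {P : AlgebraicClosure K × AlgebraicClosure K |
        (∃ N : ℕ, 1 ≤ N ∧ Function.IsPeriodicPt (henon F δ) N P) ∧
        Module.finrank K (IntermediateField.adjoin K {P.1, P.2}) ≤ B}.Finite ∧
      {P : AlgebraicClosure K × AlgebraicClosure K |
        (∃ N : ℕ, 1 ≤ N ∧ Function.IsPeriodicPt (henon F δ) N P) ∧
        Module.finrank K (IntermediateField.adjoin K {P.1, P.2}) ≤ B}.ncard ≤ C := by
  obtain ⟨p, hp⟩ := hprime d (by omega)
  refine ⟨d ^ NN p (D * B), ?_⟩
  intro K _ _ hD F δ hδ hFd hF
  set Ω := AlgebraicClosure K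
  set T : Set (ℤ → Ω) := {z : ℤ → Ω | Per z (NN p (D * B)) ∧ Rec (F.map (algebraMap K Ω)) (algebraMap K Ω δ) z}
    with hT
  have hfd : (F.map (algebraMap K Ω)).natDegree = d := by rw [natDegree_map, hFd]
  have hfixT := hfix Ω (F.map (algebraMap K Ω)) (algebraMap K Ω δ) (NN p (D * B)) (by omega) (NN_pos hp.1)
  rw [hfd] at hfixT
  have hsub : {P : Ω × Ω |
        (∃ N : ℕ, 1 ≤ N ∧ Function.IsPeriodicPt (henon F δ) N P) ∧
        Module.finrank K (IntermediateField.adjoin K {P.1, P.2}) ≤ B} ⊆ (fun z : ℤ → Ω => (z 0, z 1)) '' T := by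
    rintro P ⟨⟨N, hN, hper⟩, hB⟩
    set E : IntermediateField K Ω := IntermediateField.adjoin K {P.1, P.2} with hE
    have hfin : FiniteDimensional K E := by
      apply IntermediateField.finiteDimensional_adjoin
      intro x _
      exact (Algebra.IsAlgebraic.isAlgebraic x).isIntegral
    have : NumberField E := by
      have : FiniteDimensional ℚ E := Module.Finite.trans K E
      exact { to_charZero := inferInstance, to_finiteDimensional := inferInstance }
    have hME := finrank_le_mul E hD hB
    have h1 : P.1 ∈ E := IntermediateField.subset_adjoin K _ (by simp)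
    have h2 : P.2 ∈ E := IntermediateField.subset_adjoin K _ (by simp)
    have hmem := orb_mem F δ E P h1 h2
    have hop := orb_per F δ hper
    -- sequence in E
    set x : ℕ → E := fun m => ⟨orb F δ P m, hmem m⟩ with hx
    have hxp : ∀ m, x (m + N) = x m := by
      intro m
      apply Subtype.ext
      exact hop m
    have hxr : ∀ m, x (m + 2) + algebraMap K E δ * x m = (F.map (algebraMap K E)).eval (x (m + 1)) := by
      intro m
      apply Subtype.ext
      have := orb_rec F δ P m
      rw [eval_map_algebraMap] at this ⊢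
      have e : ((aeval (x (m + 1)) F : E) : Ω) = aeval (orb F δ P (m + 1)) F :=
        (Polynomial.aeval_algebraMap_apply Ω (x (m + 1)) F).symm
      rw [e]
      simpa using this
    have hrecE := two_rec hN hxp _ _ hxr
    have hperE := per_field hplace hdeg hsepc hpow hdic hint hper1 hper2 (algebraMap K E) p (D * B)
      hME (hFd ▸ hp) hF (algebraMap K E δ) _ N hN (two_per x N) hrecE
    refine ⟨two (orb F δ P) N, ⟨?_, ?_⟩, ?_⟩
    · intro n
      have := congrArg (Subtype.val) (hperE n)
      exact this
    · exact two_rec hN hop _ _ (orb_rec F δ P)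
    · have e0 : two (orb F δ P) N 0 = P.1 := by
        rw [two_eq hN hop 0 0 (by simp), orb_zero]
      have e1 : two (orb F δ P) N 1 = P.2 := by
        rw [two_eq hN hop 1 1 (by simp), orb_one]
      simp only [e0, e1]
  have hfinT : T.Finite := hfixT.1
  refine ⟨(hfinT.image _).subset hsub, ?_⟩
  calc _ ≤ ((fun z : ℤ → Ω => (z 0, z 1)) '' T).ncard := Set.ncard_le_ncard hsub (hfinT.image _)
    _ ≤ T.ncard := Set.ncard_image_le hfinT
    _ ≤ _ := hfixT.2

/-- preperiodic point of a polynomial -/
def PrePer {K R : Type} [Field K] [Field R] [Algebra K R] (F : K[X]) (x : R) : Prop :=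
  ∃ m n : ℕ, m < n ∧ (fun y : R => aeval y F)^[m] x = (fun y : R => aeval y F)^[n] x

theorem it_mem {K R : Type} [Field K] [Field R] [Algebra K R] (F : K[X])
    (E : IntermediateField K R) (x : E) (m : ℕ) :
    (((fun y : E => aeval y F)^[m] x : E) : R) = (fun y : R => aeval y F)^[m] (x : R) := by
  induction m with
  | zero => rfl
  | succ m ih =>
    rw [Function.iterate_succ_apply', Function.iterate_succ_apply', ← ih]
    have := Polynomial.aeval_algebraMap_apply R ((fun y : E => aeval y F)^[m] x) F
    simpa using this.symm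

theorem poly_main (hplace : S_PLACE) (hprime : S_PRIME) (hdeg : S_DEG) (hsepc : S_SEPC)
    (hpow : S_POW) (hdic : S_DICV) (hint : S_INT) (hper1 : S_PER1) (hper2 : S_PER2) (hfix : S_FIX)
    (D B d : ℕ) (hd : 2 ≤ d) : ∃ C : ℕ, ∀ (K : Type) [Field K] [NumberField K],
      Module.finrank ℚ K = D → ∀ (F : K[X]), F.natDegree = d → Exc (D * B) F →
      {x : AlgebraicClosure K | PrePer F x ∧
        Module.finrank K (IntermediateField.adjoin K {x}) ≤ B}.Finite ∧
      {x : AlgebraicClosure K | PrePer F x ∧
        Module.finrank K (IntermediateField.adjoin K {x}) ≤ B}.ncard ≤ C := by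
  obtain ⟨p, hp⟩ := hprime d (by omega)
  refine ⟨d ^ NN p (D * B), ?_⟩
  intro K _ _ hD F hFd hF
  set Ω := AlgebraicClosure K
  set T : Set (ℤ → Ω) := {z : ℤ → Ω | Per z (NN p (D * B)) ∧ Rec (F.map (algebraMap K Ω)) 0 z}
    with hT
  have hfd : (F.map (algebraMap K Ω)).natDegree = d := by rw [natDegree_map, hFd]
  have hfixT := hfix Ω (F.map (algebraMap K Ω)) 0 (NN p (D * B)) (by omega) (NN_pos hp.1)
  rw [hfd] at hfixT
  have hsub : {x : Ω | PrePer F x ∧
        Module.finrank K (IntermediateField.adjoin K {x}) ≤ B} ⊆ (fun z : ℤ → Ω => z 0) '' T := by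
    rintro P ⟨⟨a, b, hab, hpre⟩, hB⟩
    set E : IntermediateField K Ω := IntermediateField.adjoin K {P} with hE
    have hfin : FiniteDimensional K E := by
      apply IntermediateField.finiteDimensional_adjoin
      intro x _
      exact (Algebra.IsAlgebraic.isAlgebraic x).isIntegral
    have : NumberField E := by
      have : FiniteDimensional ℚ E := Module.Finite.trans K E
      exact { to_charZero := inferInstance, to_finiteDimensional := inferInstance }
    have hME := finrank_le_mul E hD hB
    have h1 : P ∈ E := IntermediateField.subset_adjoin K _ (by simp)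
    set x0 : E := ⟨P, h1⟩ with hx0
    have hinj : Function.Injective (fun y : E => aeval y F) := by
      intro y y' h
      apply inj_field hplace hdeg hsepc hpow hdic (algebraMap K E) p (D * B) hME (hFd ▸ hp) hF
      simpa [eval_map_algebraMap] using h
    have hpreE : (fun y : E => aeval y F)^[a] x0 = (fun y : E => aeval y F)^[b] x0 := by
      apply Subtype.ext
      rw [it_mem, it_mem]
      exact hpre
    obtain ⟨N, rfl⟩ := Nat.exists_eq_add_of_lt hab
    have hperE : (fun y : E => aeval y F)^[N + 1] x0 = x0 := by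
      have : (fun y : E => aeval y F)^[a] ((fun y : E => aeval y F)^[N + 1] x0) =
          (fun y : E => aeval y F)^[a] x0 := by
        rw [← Function.iterate_add_apply, hpreE]
        rfl
      exact hinj.iterate a this
    set x : ℕ → E := fun m => (fun y : E => aeval y F)^[m] x0 with hx
    have hN : 1 ≤ N + 1 := by omega
    have hxp : ∀ m, x (m + (N + 1)) = x m := by
      intro m
      simp only [hx]
      rw [Function.iterate_add_apply, hperE]
    have hxr : ∀ m, x (m + 2) + 0 * x m = (F.map (algebraMap K E)).eval (x (m + 1)) := by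
      intro m
      rw [eval_map_algebraMap, zero_mul, add_zero]
      simp only [hx]
      rw [Function.iterate_succ_apply']
    have hrecE := two_rec hN hxp _ _ hxr
    have hperE := per_field hplace hdeg hsepc hpow hdic hint hper1 hper2 (algebraMap K E) p (D * B)
      hME (hFd ▸ hp) hF 0 _ (N + 1) hN (two_per x (N + 1)) hrecE
    refine ⟨fun k => ((two x (N + 1) k : E) : Ω), ⟨?_, ?_⟩, ?_⟩
    · intro n
      have := congrArg (Subtype.val) (hperE n)
      exact this
    · intro k
      have := congrArg (Subtype.val) (hrecE k)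
      have e : ((aeval (two x (N + 1) k) F : E) : Ω) = aeval ((two x (N + 1) k : E) : Ω) F :=
        (Polynomial.aeval_algebraMap_apply Ω (two x (N + 1) k) F).symm
      rw [eval_map_algebraMap] at this ⊢
      rw [← e]
      simpa using this
    · have e0 : two x (N + 1) 0 = x0 := by
        rw [two_eq hN hxp 0 0 (by simp)]
        rfl
      simp only [e0]
      rfl
  have hfinT : T.Finite := hfixT.1
  refine ⟨(hfinT.image _).subset hsub, ?_⟩
  calc _ ≤ ((fun z : ℤ → Ω => z 0) '' T).ncard := Set.ncard_le_ncard hsub (hfinT.image _)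
    _ ≤ T.ncard := Set.ncard_image_le hfinT
    _ ≤ _ := hfixT.2

end Pool.Agent.N236.UB
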