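import Pool.Agent.N236.UB.Asm

/-!
# Project UB (helper236): assembly, global part
-/

set_option autoImplicit false

open Polynomial

namespace Pool.Agent.N236.UB

/-- two-sided periodic sequence from a one-sided one -/
noncomputable def two {R : Type} (x : ℕ → R) (N : ℕ) (k : ℤ) : R := x (k % N).toNat

theorem two_eq {R : Type} {x : ℕ → R} {N : ℕ} (hN : 1 ≤ N) (hx : ∀ m, x (m + N) = x m) (k : ℤ) (m : ℕ)
    (h : (m : ℤ) % N = k % N) : two x N k = x m := by
  have hmul : ∀ (a t : ℕ), x (a + t * N) = x a := by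
    intro a t
    induction t with
    | zero => simp
    | succ t ih =>
      have := hx (a + t * N)
      rw [ih] at this
      rw [← this]
      congr 1
      ring
  unfold two
  rw [← h]
  have h1 : ((m : ℤ) % N).toNat = m % N := by
    have : ((m : ℤ) % (N : ℤ)) = ((m % N : ℕ) : ℤ) := by push_cast; rfl
    rw [this]
    exact Int.toNat_natCast _
  rw [h1]
  conv_rhs => rw [← Nat.mod_add_div m N]
  rw [mul_comm N]
  exact (hmul (m % N) (m / N)).symm

theorem two_per {R : Type} (x : ℕ → R) (N : ℕ) : Per (two x N) N := by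
  intro n
  unfold two
  simp

/-- the recursion passes to the two-sided sequence -/
theorem two_rec {R : Type} [Field R] {x : ℕ → R} {N : ℕ} (hN : 1 ≤ N) (hx : ∀ m, x (m + N) = x m)
    (F : R[X]) (δ : R) (h : ∀ m, x (m + 2) + δ * x m = F.eval (x (m + 1))) : Rec F δ (two x N) := by
  intro k
  have hN0 : (0 : ℤ) < N := by exact_mod_cast hN
  set m : ℕ := ((k - 1) % N).toNat with hm
  have hm' : (m : ℤ) = (k - 1) % N := by
    rw [hm]
    exact Int.toNat_of_nonneg (Int.emod_nonneg _ hN0.ne')
  have e0 : (m : ℤ) % N = (k - 1) % N := by rw [hm', Int.emod_emod_of_dvd _ dvd_rfl]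
  have e1 : ((m + 1 : ℕ) : ℤ) % N = k % N := by
    push_cast
    rw [Int.add_emod, e0, ← Int.add_emod]
    congr 1
    ring
  have e2 : ((m + 2 : ℕ) : ℤ) % N = (k + 1) % N := by
    push_cast
    rw [Int.add_emod, e0, ← Int.add_emod]
    congr 1
    ring
  rw [two_eq hN hx _ _ e0, two_eq hN hx _ _ e1, two_eq hN hx _ _ e2]
  exact h m

section henon

variable {K R : Type} [Field K] [Field R] [Algebra K R] (F : K[X]) (δ : K)

/-- first coordinates of the orbit -/
noncomputable def orb (P : R × R) (m : ℕ) : R := ((henon F δ)^[m] P).1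

theorem orb_snd (P : R × R) (m : ℕ) : ((henon F δ)^[m] P).2 = orb F δ P (m + 1) := by
  unfold orb
  rw [Function.iterate_succ_apply']
  rfl

theorem orb_rec (P : R × R) (m : ℕ) :
    orb F δ P (m + 2) + algebraMap K R δ * orb F δ P m = (F.map (algebraMap K R)).eval (orb F δ P (m + 1)) := by
  have h1 : orb F δ P (m + 2) = ((henon F δ)^[m + 1] P).2 := (orb_snd F δ P (m + 1)).symm
  rw [h1, Function.iterate_succ_apply']
  have h2 : (henon F δ ((henon F δ)^[m] P)).2 =
      aeval ((henon F δ)^[m] P).2 F - algebraMap K R δ * ((henon F δ)^[m] P).1 := rfl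
  rw [h2, orb_snd]
  rw [eval_map_algebraMap]
  unfold orb
  ring

theorem orb_zero (P : R × R) : orb F δ P 0 = P.1 := rfl

theorem orb_one (P : R × R) : orb F δ P 1 = P.2 := rfl

theorem orb_per {P : R × R} {N : ℕ} (h : Function.IsPeriodicPt (henon F δ) N P) (m : ℕ) :
    orb F δ P (m + N) = orb F δ P m := by
  unfold orb
  rw [Function.iterate_add_apply, h]

end henon

/-- the orbit stays in an intermediate field. -/
theorem orb_mem {K R : Type} [Field K] [Field R] [Algebra K R] (F : K[X]) (δ : K)
    (E : IntermediateField K R) (P : R × R) (h1 : P.1 ∈ E) (h2 : P.2 ∈ E) (m : ℕ) :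
    orb F δ P m ∈ E := by
  have key : ∀ m, orb F δ P m ∈ E ∧ orb F δ P (m + 1) ∈ E := by
    intro m
    induction m with
    | zero => exact ⟨h1, h2⟩
    | succ m ih =>
      refine ⟨ih.2, ?_⟩
      have := orb_rec F δ P m
      have e : orb F δ P (m + 1 + 1) = (F.map (algebraMap K R)).eval (orb F δ P (m + 1)) -
          algebraMap K R δ * orb F δ P m := by rw [← this]; ring
      rw [e]
      refine E.sub_mem ?_ (E.mul_mem (E.algebraMap_mem δ) ih.1)
      rw [eval_map_algebraMap]
      have hx := ih.2
      have : aeval (orb F δ P (m + 1)) F = ((aeval (⟨orb F δ P (m + 1), hx⟩ : E) F : E) : R) := by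
        have := Polynomial.aeval_algebraMap_apply R (⟨orb F δ P (m + 1), hx⟩ : E) F
        simpa using this
      rw [this]
      exact SetLike.coe_mem _
  exact (key m).1

theorem finrank_le_mul {K : Type} [Field K] [NumberField K] (E : IntermediateField K (AlgebraicClosure K))
    [FiniteDimensional K E] {D B : ℕ} (hD : Module.finrank ℚ K = D) (hB : Module.finrank K E ≤ B) :
    Module.finrank ℚ E ≤ D * B := by
  rw [← Module.finrank_mul_finrank ℚ K E, hD]
  exact Nat.mul_le_mul_left _ hB

end Pool.Agent.N236.UB
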