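import Pool.Agent.N236.UB.Def

/-!
# Project UB (helper236): statements of the parts
-/

set_option autoImplicit false

open Polynomial

namespace Pool.Agent.N236.UB

/-- A place of a number field above `p`. -/
def S_PLACE : Prop := ∀ (L : Type) [Field L] [NumberField L] (M p : ℕ), p.Prime →
  Module.finrank ℚ L ≤ M → ∃ (v : AbsoluteValue L ℝ) (f e : ℕ), 1 ≤ f ∧ f ≤ M ∧ 1 ≤ e ∧ e ≤ M ∧
    Loc v p (p ^ f) e

/-- A prime which is a primitive root modulo all prime factors of `d`. -/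
def S_PRIME : Prop := ∀ d : ℕ, 1 ≤ d → ∃ p : ℕ, p.Prime ∧ ¬ p ∣ d ∧
  ∀ l : ℕ, l.Prime → l ∣ d → ∀ f : ℕ, 1 ≤ f → f < l - 1 → ¬ l ∣ p ^ f - 1

/-- affine maps are separated, and compositions -/
def S_SEPC : Prop := ∀ (L : Type) [Field L] (v : AbsoluteValue L ℝ) (p q e : ℕ), Loc v p q e →
  (∀ a b : L, Sep v (C a * X + C b)) ∧ (∀ F G : L[X], Sep v F → Sep v G → Sep v (F.comp G))

/-- powers are separated -/
def S_POW : Prop := ∀ (L : Type) [Field L] (v : AbsoluteValue L ℝ) (p q e l : ℕ), Loc v p q e →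
  p.Prime → 1 ≤ l → ¬ p ∣ l → Nat.Coprime l (q - 1) → Sep v ((X : L[X]) ^ l)

/-- Dickson polynomials over finite fields. -/
def S_DICK : Prop := ∀ (k : Type) [Field k] [Fintype k] (l : ℕ), 1 ≤ l → (l : k) ≠ 0 →
  Nat.Coprime l (Fintype.card k ^ 2 - 1) → ∀ β : k,
    (∀ x y : k, (dickson 1 β l).eval x = (dickson 1 β l).eval y → x = y) ∧
    (∀ x : k, (x ≠ 0 ∨ β ≠ 0) → (derivative (dickson 1 β l)).eval x ≠ 0)

/-- Dickson polynomials are separated. -/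
def S_DICV : Prop := ∀ (L : Type) [Field L] (v : AbsoluteValue L ℝ) (p q e l : ℕ) (α : L), Loc v p q e →
  p.Prime → l.Prime → ¬ p ∣ l → Nat.Coprime l (q ^ 2 - 1) → Sep v (dickson 1 α l)

/-- Reduction of periodic sequences to integral ones. -/
def S_INT : Prop := ∀ (L : Type) [Field L] (v : AbsoluteValue L ℝ) (p q e : ℕ), Loc v p q e →
  ∀ (F : L[X]) (δ : L), Sep v F → v δ ≤ 1 → ∀ (z : ℤ → L) (N : ℕ), 1 ≤ N → Per z N → Rec F δ z →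
    (∀ n : ℤ, z (n + 1) = z n) ∨
    ∃ (c s : L) (G : L[X]), s ≠ 0 ∧ IntPol v G ∧ (∀ n : ℤ, v ((z n - c) / s) ≤ 1) ∧
      Rec G δ (fun n => (z n - c) / s)

/-- Divided differences. -/
def S_DD : Prop := ∀ (L : Type) [Field L] (v : AbsoluteValue L ℝ) (p q e : ℕ), Loc v p q e →
  ∀ G : L[X], (∀ x y : L, G.eval x - G.eval y = dd G x y * (x - y)) ∧
    (IntPol v G → (∀ x y : L, v x ≤ 1 → v y ≤ 1 → v (dd G x y) ≤ 1) ∧
      (∀ x y x' y' : L, v x ≤ 1 → v y ≤ 1 → v x' ≤ 1 → v y' ≤ 1 →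
        v (dd G x y - dd G x' y') ≤ max (v (x - x')) (v (y - y'))))

/-- Pigeonhole: some shift `m ≤ q^2` is congruent to the identity. -/
def S_PIG : Prop := ∀ (L : Type) [Field L] (v : AbsoluteValue L ℝ) (p q e : ℕ), Loc v p q e →
  ∀ (G : L[X]) (δ : L) (y : ℤ → L) (N : ℕ), IntPol v G → v δ ≤ 1 → 1 ≤ N → Per y N →
    (∀ n : ℤ, v (y n) ≤ 1) → Rec G δ y → ∃ m : ℕ, 1 ≤ m ∧ m ≤ q ^ 2 ∧ ∀ n : ℤ, v (y (n + m) - y n) < 1

/-- The abstract periodicity lemma. `w j` = displacement after `j` steps, `A j` = its derivative. -/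
def S_ABS : Prop := ∀ (L : Type) [Field L] (v : AbsoluteValue L ℝ) (p q e k g : ℕ), Loc v p q e →
  p.Prime → 1 ≤ g → ∀ (w : ℕ → Fin k → L) (A : ℕ → Matrix (Fin k) (Fin k) L),
    (∀ j a, 1 ≤ j → v (w j a) < 1) →
    (∀ j a b, 1 ≤ j → v (A j a b) ≤ 1) →
    (w 1 ≠ 0 → ∀ a b, v ((A 1 ^ g - 1) a b) < 1) →
    (∀ i j, 1 ≤ i → 1 ≤ j → w j = 0 → w (i * j) = 0) →
    (∀ i j, 1 ≤ i → 1 ≤ j → w j ≠ 0 → ∀ r : ℝ, (∀ a, v (w j a) ≤ r) →
      ∀ a, v ((w (i * j) - (∑ t ∈ Finset.range i, A j ^ t).mulVec (w j)) a) ≤ r * r) →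
    (∀ i j, 1 ≤ i → 1 ≤ j → w (i * j) ≠ 0 → ∀ r : ℝ, (∀ a, v (w j a) ≤ r) →
      ∀ a b, v ((A (i * j) - A j ^ i) a b) ≤ r) →
    (∃ N, 1 ≤ N ∧ w N = 0) → w (g * p ^ (e + 1)) = 0

/-- Reductions of integral 2x2 matrices with unit determinant have order dividing `gl q`. -/
def S_GL : Prop := ∀ (L : Type) [Field L] (v : AbsoluteValue L ℝ) (p q e : ℕ), Loc v p q e →
  (∀ A : Matrix (Fin 2) (Fin 2) L, (∀ a b, v (A a b) ≤ 1) → v A.det = 1 →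
    ∀ a b, v ((A ^ gl q - 1) a b) < 1) ∧
  (∀ x : L, v x = 1 → v (x ^ gl q - 1) < 1)

/-- Period bound, `|δ| = 1`. -/
def S_PER2 : Prop := ∀ (L : Type) [Field L] (v : AbsoluteValue L ℝ) (p q e : ℕ), Loc v p q e → p.Prime →
  ∀ (G : L[X]) (δ : L) (y : ℤ → L) (N : ℕ), IntPol v G → v δ = 1 → 1 ≤ N → Per y N →
    (∀ n : ℤ, v (y n) ≤ 1) → Rec G δ y → Per y (N0 p q e)

/-- Period bound, `|δ| < 1`. -/
def S_PER1 : Prop := ∀ (L : Type) [Field L] (v : AbsoluteValue L ℝ) (p q e : ℕ), Loc v p q e → p.Prime →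
  ∀ (G : L[X]) (δ : L) (y : ℤ → L) (N : ℕ), IntPol v G → v δ < 1 → 1 ≤ N → Per y N →
    (∀ n : ℤ, v (y n) ≤ 1) → Rec G δ y → Per y (N0 p q e)

/-- Number of periodic sequences of period `N`. -/
def S_FIX : Prop := ∀ (R : Type) [Field R] (F : R[X]) (δ : R) (N : ℕ), 2 ≤ F.natDegree → 1 ≤ N →
  {z : ℤ → R | Per z N ∧ Rec F δ z}.Finite ∧
  {z : ℤ → R | Per z N ∧ Rec F δ z}.ncard ≤ F.natDegree ^ N

end Pool.Agent.N236.UB

namespace Pool.Agent.N236.UB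

/-- Degree of Dickson polynomials. -/
def S_DEG : Prop := ∀ (K : Type) [Field K] (α : K) (l : ℕ), 1 ≤ l → (dickson 1 α l).natDegree = l

end Pool.Agent.N236.UB
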