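import Pool.Agent.N236.UB.Fin
import Pool.Agent.N624.UB.PLACE
import Pool.Agent.N514.UB.PRIME
import Pool.Agent.N654.UB.SEPC
import Pool.Agent.N56.UB.POW
import Pool.Agent.N56.UB.PIG
import Pool.Agent.N578.UB.DICK
import Pool.Agent.N491.UB.DICV
import Pool.Agent.N491.UB.ABS
import Pool.Agent.N374.UB.INT
import Pool.Agent.N374.UB.DD
import Pool.Agent.N374.UB.FIX
import Pool.Agent.N615.UB.GL
import Pool.Agent.N615.UB.DEG
import Pool.Agent.N907.UB.Per2
import Pool.Agent.N152.UB.PER1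

/-!
# Project UB (helper236): all parts together
-/

set_option autoImplicit false

namespace Pool.Agent.N236.UB

theorem s_place : S_PLACE := Pool.Agent.N624.UB.t_place
theorem s_prime : S_PRIME := Pool.Agent.N514.UB.t_prime
theorem s_sepc : S_SEPC := Pool.Agent.N654.UB.t_sepc
theorem s_pow : S_POW := Pool.Agent.N56.UB.t_POW
theorem s_dicv : S_DICV := Pool.Agent.N491.UB.t_dicv Pool.Agent.N578.UB.t_dick
theorem s_int : S_INT := Pool.Agent.N374.UBINT.t_int
theorem s_per2 : S_PER2 := Pool.Agent.N907.UB.t_per2 Pool.Agent.N374.UBDD.t_dd Pool.Agent.N56.UB.t_PIG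
  Pool.Agent.N491.UB.t_abs Pool.Agent.N615.UB.t_gl
theorem s_per1 : S_PER1 := Pool.Agent.N152.UB.t_per1 Pool.Agent.N374.UBDD.t_dd Pool.Agent.N56.UB.t_PIG
  Pool.Agent.N491.UB.t_abs Pool.Agent.N615.UB.t_gl
theorem s_fix : S_FIX := Pool.Agent.N374.UBFIX.t_fix
theorem s_deg : S_DEG := Pool.Agent.N615.UB.t_deg

end Pool.Agent.N236.UB
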